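import Mathlib
import Pool.Agent.MP_98ebd8_lc.Causal

namespace Pool.Agent.Results.MP_98ebd8_lc.Counterexample

open Pool.Agent.MP_98ebd8_lc

/-- In every dimension `n ≥ 3` there is a causally non-totally vicious spacetime, with underlying
manifold `ℝ^n`, on whose after relation the after-2 formula is valid. -/
theorem result (n : ℕ) (hn : 3 ≤ n) :
    ∃ S : Spacetime n (EuclideanSpace ℝ (Fin n)) (EuclideanSpace ℝ (Fin n)),
      S.CNTV ∧ after2.Valid S.After := by
  obtain ⟨m, rfl⟩ : ∃ m, n = m + 3 := ⟨n - 3, by omega⟩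
  exact ⟨example3 m, example_cntv, example_valid⟩

end Pool.Agent.Results.MP_98ebd8_lc.Counterexample
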